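import Pool.Agent.Lib.helper15.SimpRef

set_option autoImplicit false

open Pool.Agent.Lib.helper15.SimpRef

namespace Pool.Agent.Results.MP_b5b962_gt.Counter

theorem result : ∃ C : Set (Fin 3 → ℝ), IsPolytope C ∧ (∀ n, ¬IsSimplex C n) ∧
    IsSimplex (stdSimplex ℝ (Fin 3 ⊕ Fin 3)) 6 ∧
    ∃ D f D' g, Refines (stdSimplex ℝ (Fin 3 ⊕ Fin 3)) C D f D' g ∧
      ∃ a ∈ C.extremePoints ℝ, ∃ b ∈ C.extremePoints ℝ, a ≠ b ∧
        ∃ x ∈ D, ∃ y ∈ D, f x = a ∧ f y = b ∧ ∃ k, 0 < x k ∧ 0 < y k := by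
  obtain ⟨D', g, h⟩ := refines (ι := Fin 3)
  refine ⟨C _, poly, not_simplex le_rfl, simplex_std (finSumFinEquiv (m := 3) (n := 3)).symm,
    _, _, D', g, h, vtx (0, 1), extreme.ge ⟨_, by simp, rfl⟩, vtx (0, 2),
    extreme.ge ⟨_, by simp, rfl⟩, fun e => by simpa [vtx] using congrFun e 1,
    Sum.elim ![1 / 2, 0, 0] ![0, 1 / 2, 0], ⟨⟨?_, ?_⟩, ?_⟩,
    Sum.elim ![1 / 2, 0, 0] ![0, 0, 1 / 2], ⟨⟨?_, ?_⟩, ?_⟩, ?_, ?_, .inl 0, by simp, by simp⟩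
  · rintro (k | k) <;> fin_cases k <;> simp
  · simp [Fin.sum_univ_three]; norm_num
  · simp [Fin.sum_univ_three]
  · rintro (k | k) <;> fin_cases k <;> simp
  · simp [Fin.sum_univ_three]; norm_num
  · simp [Fin.sum_univ_three]
  · ext k; fin_cases k <;> simp [F, vtx]
  · ext k; fin_cases k <;> simp [F, vtx]

end Pool.Agent.Results.MP_b5b962_gt.Counter
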